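import Mathlib
import Pool.Agent.MP_e6539c_co.h19.Example

/-! Bridgeless multigraphs with at most fifteen 3-edge-cuts: the edge set is a union of two cycles,
or a component contracts onto the Petersen graph. The number fifteen is best possible. -/

namespace Pool.Agent.Results.MP_e6539c_co.FewThreeCuts

/-- The edge cut of `S`: the edges with one end in `S` and one end outside `S`. -/
def delta {V E : Type} (ends : E → Sym2 V) (S : Set V) : Set E :=
  {e | ∃ x ∈ S, ∃ y ∉ S, ends e = s(x, y)}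

/-- No isthmus: the ends of each edge are joined by a walk avoiding that edge. -/
def NoIsthmus {V E : Type} (ends : E → Sym2 V) : Prop :=
  ∀ (e : E) (x y : V), ends e = s(x, y) →
    Relation.ReflTransGen (fun a b => ∃ e' : E, e' ≠ e ∧ ends e' = s(a, b)) x y

/-- The edge set is the union of two cycles (edge sets with all degrees even; a loop adds two to
the degree, so only non-loop edges are counted). -/
def TwoCycles {V E : Type} (ends : E → Sym2 V) : Prop :=
  ∃ C₁ C₂ : Set E,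
    (∀ v : V, Even {e : E | e ∈ C₁ ∧ v ∈ ends e ∧ ¬ (ends e).IsDiag}.ncard) ∧
    (∀ v : V, Even {e : E | e ∈ C₂ ∧ v ∈ ends e ∧ ¬ (ends e).IsDiag}.ncard) ∧
    C₁ ∪ C₂ = Set.univ

/-- A component contracts onto the Petersen graph (the Kneser graph of 2-subsets of a 5-set):
ten disjoint nonempty connected vertex sets, no edge leaving their union, exactly one edge between
sets with adjacent labels and none between sets with distinct nonadjacent labels. -/
def PetersenContraction {V E : Type} (ends : E → Sym2 V) : Prop :=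
  ∃ B : {s : Finset (Fin 5) // s.card = 2} → Set V,
    (∀ i, (B i).Nonempty) ∧
    (∀ i, ∀ x ∈ B i, ∀ y ∈ B i, Relation.ReflTransGen
      (fun a b => a ∈ B i ∧ b ∈ B i ∧ ∃ e : E, ends e = s(a, b)) x y) ∧
    (∀ i j, i ≠ j → Disjoint (B i) (B j)) ∧
    (∀ i j, i ≠ j → {e : E | ∃ x ∈ B i, ∃ y ∈ B j, ends e = s(x, y)}.ncard =
      if Disjoint i.1 j.1 then 1 else 0) ∧
    (∀ (e : E) (x y : V) (i : {s : Finset (Fin 5) // s.card = 2}),
      ends e = s(x, y) → x ∈ B i → ∃ j, y ∈ B j)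

open Pool.Agent.MP_e6539c_co.h19

/-- The Petersen labels as two-element subsets. -/
def kn : Fin 10 → {s : Finset (Fin 5) // s.card = 2} :=
  ![⟨{0, 1}, by decide⟩, ⟨{2, 3}, by decide⟩, ⟨{0, 4}, by decide⟩, ⟨{1, 2}, by decide⟩,
    ⟨{3, 4}, by decide⟩, ⟨{2, 4}, by decide⟩, ⟨{1, 4}, by decide⟩, ⟨{1, 3}, by decide⟩,
    ⟨{0, 3}, by decide⟩, ⟨{0, 2}, by decide⟩]

lemma kn_surj : ∀ s, ∃ l, kn l = s := by decide +kernel

lemma kn_adj : ∀ l m, adj l m = true ↔ Disjoint (kn l).1 (kn m).1 := by decide +kernel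

lemma kn_inj : ∀ l m, kn l = kn m → l = m := by decide +kernel

lemma cover_aux : ∀ x : K, x ≠ 0 → x.1 = 1 ∨ x.2 = 1 := by decide

open Finset Classical

lemma ncard_eq {V E : Type} [Fintype V] [Fintype E] (G : E → Sym2 V) (P : E → Prop) (v : V) :
    {e | P e ∧ v ∈ G e ∧ ¬ (G e).IsDiag}.ncard = ((cut G {v}).filter P).card := by
  rw [← Set.ncard_coe_finset]
  congr 1
  ext e
  obtain ⟨x, y, h⟩ := exists_ends G e
  simp only [Set.mem_ofPred_eq, Finset.coe_filter, mem_cut_of h, h, Sym2.mem_iff,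
    Sym2.mk_isDiag_iff, Set.mem_singleton_iff]
  grind

lemma even_of {V E : Type} [Fintype V] [Fintype E] (G : E → Sym2 V) (g : E → ZMod 2) (v : V)
    (h : bd G g v = 0) : Even {e | g e = 1 ∧ v ∈ G e ∧ ¬ (G e).IsDiag}.ncard := by
  rw [ncard_eq, ← ZMod.natCast_eq_zero_iff_even, ← h, Finset.card_filter]
  push_cast
  refine Finset.sum_congr rfl (fun e _ => ?_)
  generalize g e = t
  revert t; decide

section

variable {V E : Type} [Fintype V] [Fintype E] {G : E → Sym2 V}

lemma delta_eq (G : E → Sym2 V) (S : Set V) : delta G S = cut G S := by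
  ext e
  simp only [delta, Set.mem_ofPred_eq, Finset.mem_coe, mem_cut, cr]
  exact ⟨fun ⟨x, hx, y, hy, h⟩ => ⟨x, y, h, hx, hy⟩, fun ⟨x, y, h, hx, hy⟩ => ⟨x, hx, y, hy, h⟩⟩

lemma noIsthmus_iff : NoIsthmus G ↔ Bl G := by
  constructor
  · intro hb S hS
    obtain ⟨e, he⟩ := Finset.card_eq_one.1 hS
    obtain ⟨x, y, h, hx, hy⟩ := mem_cut.1 (show e ∈ cut G S by simp [he])
    apply hy
    have := hb e x y h
    clear h hy
    induction this with
    | refl => exact hx
    | tail _ h2 ih =>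
      obtain ⟨e', n, h'⟩ := h2
      have : e' ∉ cut G S := by simp [he, n]
      rw [mem_cut_of h', not_not] at this
      exact this.1 ih
  · intro hb e x y h
    by_contra t
    refine hb {z | Relation.ReflTransGen (fun a b => ∃ e' : E, e' ≠ e ∧ G e' = s(a, b)) x z}
      (Finset.card_eq_one.2 ⟨e, Finset.eq_singleton_iff_unique_mem.2
        ⟨mem_cut.2 ⟨x, y, h, Relation.ReflTransGen.refl, t⟩, fun e' he' => ?_⟩⟩)
    obtain ⟨a, b, h', ha, hb'⟩ := mem_cut.1 he'
    by_contra n
    exact hb' (Relation.ReflTransGen.tail ha ⟨e', n, h'⟩)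

lemma twoCycles_iff : TwoCycles G ↔ HasFlow G := by
  constructor
  · rintro ⟨C1, C2, h1, h2, h⟩
    have key : ∀ (C : Set E) v, Even {e : E | e ∈ C ∧ v ∈ G e ∧ ¬ (G e).IsDiag}.ncard →
        bd G (fun e => if e ∈ C then (1 : ZMod 2) else 0) v = 0 := by
      intro C v hv
      rw [ncard_eq, ← ZMod.natCast_eq_zero_iff_even, Finset.card_filter] at hv
      push_cast at hv
      exact hv
    refine ⟨fun e => (if e ∈ C1 then 1 else 0, if e ∈ C2 then 1 else 0), fun e t => ?_, ?_⟩
    · have : e ∈ C1 ∪ C2 := by simp [h]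
      simp only [Prod.mk_eq_zero, ite_eq_right_iff, one_ne_zero, imp_false] at t
      exact this.elim t.1 t.2
    · ext1 v
      have a1 := bd_hom G (AddMonoidHom.fst _ _)
        (fun e => ((if e ∈ C1 then 1 else 0, if e ∈ C2 then 1 else 0) : K)) v
      have a2 := bd_hom G (AddMonoidHom.snd _ _)
        (fun e => ((if e ∈ C1 then 1 else 0, if e ∈ C2 then 1 else 0) : K)) v
      simp only [AddMonoidHom.coe_fst, AddMonoidHom.coe_snd] at a1 a2
      exact Prod.ext (a1.symm.trans (key C1 v (h1 v))) (a2.symm.trans (key C2 v (h2 v)))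
  · rintro ⟨f, f0, f1⟩
    refine ⟨{e | (f e).1 = 1}, {e | (f e).2 = 1}, fun v => ?_, fun v => ?_, ?_⟩
    · refine even_of G (fun e => (f e).1) v ?_
      have := bd_hom G (AddMonoidHom.fst _ _) f v
      simpa [f1] using this
    · refine even_of G (fun e => (f e).2) v ?_
      have := bd_hom G (AddMonoidHom.snd _ _) f v
      simpa [f1] using this
    · ext e
      simpa using cover_aux _ (f0 e)

lemma qp_of (h : PetersenContraction G) : QP G := by
  obtain ⟨B, -, -, h3, h4, h5⟩ := h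
  let p : V → Fin 10 := fun x => if h : ∃ l, x ∈ B (kn l) then h.choose else 0
  have p1 : ∀ l x, x ∈ B (kn l) → p x = l := fun l x hx => by
    have ex : ∃ l, x ∈ B (kn l) := ⟨l, hx⟩
    simp only [p, dif_pos ex]
    by_contra t
    exact Set.disjoint_left.1 (h3 _ _ (fun s => t (kn_inj _ _ s))) ex.choose_spec hx
  have p2 : ∀ e x y, G e = s(x, y) → p x ≠ p y → x ∈ B (kn (p x)) := fun e x y h ne => by
    by_cases ex : ∃ l, x ∈ B (kn l)
    · obtain ⟨l, hl⟩ := ex
      rwa [p1 l x hl]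
    · have ey : ¬ ∃ l, y ∈ B (kn l) := by
        rintro ⟨l, hl⟩
        obtain ⟨j, hj⟩ := h5 e y x _ (h.trans Sym2.eq_swap) hl
        obtain ⟨m, rfl⟩ := kn_surj j
        exact ex ⟨m, hj⟩
      exact absurd (by simp only [p, dif_neg ex, dif_neg ey]) ne
  refine ⟨p, fun l m hlm => ?_⟩
  have h1 := h4 _ _ (fun s => hlm (kn_inj _ _ s))
  simp only [← kn_adj] at h1
  rw [← Set.ncard_coe_finset]
  convert h1 using 2
  ext e
  simp only [Set.mem_ofPred_eq, Finset.coe_filter, Finset.mem_univ, true_and]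
  constructor
  · intro he
    obtain ⟨x, y, h'⟩ := exists_ends G e
    rw [gmap_of p h'] at he
    have ne : p x ≠ p y := by
      intro t
      rw [t] at he
      rcases Sym2.eq_iff.1 he with ⟨t1, t2⟩ | ⟨t1, t2⟩
      · exact hlm (t1.symm.trans t2)
      · exact hlm (t2.symm.trans t1)
    have b1 := p2 e x y h' ne
    have b2 := p2 e y x (h'.trans Sym2.eq_swap) ne.symm
    rcases Sym2.eq_iff.1 he with ⟨t1, t2⟩ | ⟨t1, t2⟩
    · exact ⟨x, t1 ▸ b1, y, t2 ▸ b2, h'⟩
    · exact ⟨y, t2 ▸ b2, x, t1 ▸ b1, h'.trans Sym2.eq_swap⟩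
  · rintro ⟨x, hx, y, hy, h'⟩
    rw [gmap_of p h', p1 _ x hx, p1 _ y hy]

lemma of_qp (hbl : Bl G) (h : QP G) : PetersenContraction G := by
  obtain ⟨p, hp⟩ := h
  have c3 := QP.cut3 hp
  have ex : ∀ l, ∃ z, p z = l ∧ ∃ e y, G e = s(z, y) ∧ p y ≠ l := fun l => by
    obtain ⟨e, he⟩ := Finset.card_pos.1 (show 0 < (cut G (p ⁻¹' {l})).card by rw [c3]; norm_num)
    obtain ⟨x, y, h, hx, hy⟩ := mem_cut.1 he
    exact ⟨x, hx, e, y, h, hy⟩
  choose z hz hz' using ex
  let r : Fin 10 → V → V → Prop := fun l a b => p a = l ∧ p b = l ∧ ∃ e, G e = s(a, b)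
  let A : Fin 10 → Set V := fun l => {x | Relation.ReflTransGen (r l) (z l) x}
  have hA : ∀ l, ∀ x ∈ A l, p x = l := fun l x hx => by
    induction hx with
    | refl => exact hz l
    | tail _ h _ => exact h.2.1
  have hcl : ∀ l e x y, G e = s(x, y) → x ∈ A l → p y = l → y ∈ A l := fun l e x y h hx hy =>
    Relation.ReflTransGen.tail hx ⟨hA l x hx, hy, e, h⟩
  have sub : ∀ l, cut G (A l) ⊆ cut G (p ⁻¹' {l}) := fun l e he => by
    obtain ⟨x, y, h, hx, hy⟩ := mem_cut.1 he
    exact mem_cut.2 ⟨x, y, h, hA l x hx, fun t => hy (hcl l e x y h hx t)⟩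
  have heq : ∀ l, cut G (A l) = cut G (p ⁻¹' {l}) := fun l => by
    have h1 := Finset.card_le_card (sub l)
    have h2 : 0 < (cut G (A l)).card := by
      obtain ⟨e, y, h, hy⟩ := hz' l
      exact Finset.card_pos.2 ⟨e, mem_cut.2 ⟨_, y, h, Relation.ReflTransGen.refl,
        fun t => hy (hA l y t)⟩⟩
    have h3 := hbl (A l)
    have h4 := hbl (p ⁻¹' {l} \ A l)
    have h5 : cut G (p ⁻¹' {l} \ A l) = cut G (p ⁻¹' {l}) \ cut G (A l) := by
      ext e
      obtain ⟨x, y, h⟩ := exists_ends G e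
      have a1 := hA l x
      have a2 := hA l y
      have a3 := hcl l e x y h
      have a4 := hcl l e y x (h.trans Sym2.eq_swap)
      rw [Finset.mem_sdiff, mem_cut_of h, mem_cut_of h, mem_cut_of h]
      simp only [Set.mem_sdiff, Set.mem_preimage, Set.mem_singleton_iff]
      tauto
    rw [h5, Finset.card_sdiff_of_subset (sub l), c3] at h4
    have := c3 l
    exact Finset.eq_of_subset_of_card_le (sub l) (by omega)
  have hin : ∀ e x y, G e = s(x, y) → p x ≠ p y → x ∈ A (p x) := fun e x y h hne => by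
    have : e ∈ cut G (A (p x)) := by
      rw [heq, mem_cut_of h]
      simp [hne.symm]
    rw [mem_cut_of h] at this
    have a2 := hA (p x) y
    by_contra t
    exact this ⟨fun s => absurd s t, fun s => absurd (a2 s).symm hne⟩
  choose ι hι using kn_surj
  have ι1 : ∀ i j, i ≠ j → ι i ≠ ι j := fun i j h t => h (by rw [← hι i, t, hι])
  have ι2 : ∀ l, ∃ i, ι i = l := by
    apply Finite.injective_iff_surjective_of_equiv (f := ι) (Fintype.equivOfCardEq (by
      decide +kernel)) |>.1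
    intro i j h
    by_contra t
    exact ι1 i j t h
  refine ⟨fun i => A (ι i), fun i => ⟨_, Relation.ReflTransGen.refl⟩, fun i x hx y hy => ?_,
    fun i j h => ?_, fun i j h => ?_, fun e x y i h hx => ?_⟩
  · have key : ∀ y ∈ A (ι i), Relation.ReflTransGen
        (fun a b => a ∈ A (ι i) ∧ b ∈ A (ι i) ∧ ∃ e : E, G e = s(a, b)) (z (ι i)) y := by
      intro y hy
      induction hy with
      | refl => exact Relation.ReflTransGen.refl
      | tail h1 h2 ih => exact ih.tail ⟨h1, h1.tail h2, h2.2.2⟩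
    refine Relation.ReflTransGen.trans ?_ (key y hy)
    have := key x hx
    clear hx
    induction this with
    | refl => exact Relation.ReflTransGen.refl
    | tail _ h2 ih =>
      obtain ⟨a1, a2, e, h⟩ := h2
      exact Relation.ReflTransGen.head ⟨a2, a1, e, h.trans Sym2.eq_swap⟩ ih
  · exact Set.disjoint_left.2 (fun x h1 h2 => ι1 i j h ((hA _ x h1).symm.trans (hA _ x h2)))
  · have h1 := hp _ _ (ι1 i j h)
    simp only [kn_adj, hι] at h1
    rw [← Set.ncard_coe_finset] at h1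
    convert h1 using 2
    ext e
    simp only [Set.mem_ofPred_eq, Finset.coe_filter, Finset.mem_univ, true_and]
    constructor
    · rintro ⟨x, hx, y, hy, h'⟩
      rw [gmap_of p h', hA _ x hx, hA _ y hy]
    · intro he
      obtain ⟨x, y, h'⟩ := exists_ends G e
      rw [gmap_of p h'] at he
      have ne : p x ≠ p y := by
        intro t
        rw [t] at he
        rcases Sym2.eq_iff.1 he with ⟨t1, t2⟩ | ⟨t1, t2⟩
        · exact ι1 i j h (t1.symm.trans t2)
        · exact ι1 i j h (t2.symm.trans t1)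
      have b1 := hin e x y h' ne
      have b2 := hin e y x (h'.trans Sym2.eq_swap) ne.symm
      rcases Sym2.eq_iff.1 he with ⟨t1, t2⟩ | ⟨t1, t2⟩
      · exact ⟨x, t1 ▸ b1, y, t2 ▸ b2, h'⟩
      · exact ⟨y, t2 ▸ b2, x, t1 ▸ b1, h'.trans Sym2.eq_swap⟩
  · by_cases t : p y = ι i
    · exact ⟨i, hcl _ e x y h hx t⟩
    · obtain ⟨j, hj⟩ := ι2 (p y)
      refine ⟨j, ?_⟩
      have := hin e y x (h.trans Sym2.eq_swap) (by rw [hA _ x hx]; exact t)
      rwa [← hj] at this

end

theorem result :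
    (∀ (V E : Type) [Fintype V] [Fintype E] (ends : E → Sym2 V), NoIsthmus ends →
      (¬ ∃ S : Fin 16 → Set V, (∀ i, (delta ends (S i)).ncard = 3) ∧
        ∀ i j, i ≠ j → Disjoint (S i) (S j) ∧ delta ends (S i) ≠ delta ends (S j)) →
      TwoCycles ends ∨ PetersenContraction ends) ∧
    ∃ ends : Fin 29 → Sym2 (Fin 18), NoIsthmus ends ∧
      {F : Set (Fin 29) | F.ncard = 3 ∧ ∃ S : Set (Fin 18), F = delta ends S}.ncard = 16 ∧
      ¬ TwoCycles ends ∧ ¬ PetersenContraction ends := by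
  refine ⟨fun V E _ _ G hb hp => ?_, DP, noIsthmus_iff.2 DP_bl, ?_,
    fun h => DP_nf (twoCycles_iff.1 h), fun h => DP_nq (qp_of h)⟩
  · have hbl := noIsthmus_iff.1 hb
    refine (flow_or_petersen_pack G hbl (fun ⟨S, s1, s2⟩ => hp ⟨S, fun i => ?_, fun i j hij =>
      ⟨(s2 i j hij).1, fun t => (s2 i j hij).2 ?_⟩⟩)).imp twoCycles_iff.2 (of_qp hbl)
    · rw [delta_eq, Set.ncard_coe_finset, s1]
    · rwa [delta_eq, delta_eq, Finset.coe_inj] at t
  · have e1 : {F : Set (Fin 29) | F.ncard = 3 ∧ ∃ S : Set (Fin 18), F = delta DP S} =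
        (fun z : Fin 18 => (cut DP {z} : Set (Fin 29))) '' {z | 2 ≤ z.val} := by
      ext F
      simp only [Set.mem_ofPred_eq, Set.mem_image, delta_eq]
      constructor
      · rintro ⟨h, S, rfl⟩
        rw [Set.ncard_coe_finset] at h
        obtain ⟨-, z, z1, rfl | rfl⟩ := (DP_cut S h.le).resolve_left (by omega)
        · exact ⟨z, z1, rfl⟩
        · exact ⟨z, z1, by rw [cut_compl]⟩
      · rintro ⟨z, z1, rfl⟩
        exact ⟨by rw [Set.ncard_coe_finset, DP_star, DP_deg z z1], {z}, rfl⟩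
    rw [e1, Set.InjOn.ncard_image (fun x _ y _ h => DP_inj x y (by
      rw [← DP_star, ← DP_star]; exact Finset.coe_inj.1 h))]
    have e2 : {z : Fin 18 | 2 ≤ z.val} = (Finset.univ.filter (fun z : Fin 18 => 2 ≤ z.val) :) := by
      ext z; simp
    rw [e2, Set.ncard_coe_finset]
    decide +kernel

end Pool.Agent.Results.MP_e6539c_co.FewThreeCuts
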