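import Mathlib
import Pool.Agent.MP_e6539c_co.C5.Final

/-! Bridgeless multigraphs with no Petersen minor have a five-cycle double cover. -/

set_option autoImplicit false

namespace Pool.Agent.Results.MP_e6539c_co.FiveCycleCover

open Pool.Agent.MP_e6539c_co.C5

theorem result : ∀ (V E : Type) [Fintype V] [Fintype E] (ends : E → Sym2 V),
    (∀ (e : E) (x y : V), ends e = s(x, y) →
      Relation.ReflTransGen (fun a b => ∃ e' : E, e' ≠ e ∧ ends e' = s(a, b)) x y) →
    (¬ ∃ B : {s : Finset (Fin 5) // s.card = 2} → Set V,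
      (∀ i, ((SimpleGraph.fromEdgeSet (Set.range ends)).induce (B i)).Connected) ∧
      (∀ i j, i ≠ j → Disjoint (B i) (B j)) ∧
      (∀ i j : {s : Finset (Fin 5) // s.card = 2}, Disjoint i.1 j.1 →
        ∃ x ∈ B i, ∃ y ∈ B j, (SimpleGraph.fromEdgeSet (Set.range ends)).Adj x y)) →
    ∃ C : Fin 5 → Set E,
      (∀ (i : Fin 5) (v : V), Even {e : E | e ∈ C i ∧ v ∈ ends e ∧ ¬ (ends e).IsDiag}.ncard) ∧
      ∀ e : E, {i : Fin 5 | e ∈ C i}.ncard = 2 :=
  fun V E _ _ ends => final cdcAll V E ends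

end Pool.Agent.Results.MP_e6539c_co.FiveCycleCover
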