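import Mathlib
import Pool.Agent.MP_e6539c_co.P5.Final

/-! Bridgeless multigraphs with no Petersen minor have a nowhere-zero five-flow. -/

set_option autoImplicit false

namespace Pool.Agent.Results.MP_e6539c_co.FiveFlow

open Pool.Agent.MP_e6539c_co.P5

theorem result : ∀ (V E : Type) [Fintype V] [Fintype E] [DecidableEq V] (ends : E → Sym2 V),
    (∀ (e : E) (x y : V), ends e = s(x, y) →
      Relation.ReflTransGen (fun a b => ∃ e' : E, e' ≠ e ∧ ends e' = s(a, b)) x y) →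
    (¬ ∃ B : {s : Finset (Fin 5) // s.card = 2} → Set V,
      (∀ i, ((SimpleGraph.fromEdgeSet (Set.range ends)).induce (B i)).Connected) ∧
      (∀ i j, i ≠ j → Disjoint (B i) (B j)) ∧
      (∀ i j : {s : Finset (Fin 5) // s.card = 2}, Disjoint i.1 j.1 →
        ∃ x ∈ B i, ∃ y ∈ B j, (SimpleGraph.fromEdgeSet (Set.range ends)).Adj x y)) →
    ∃ tl hd : E → V, (∀ e, ends e = s(tl e, hd e)) ∧ ∃ φ : E → ℤ, (∀ e, φ e ≠ 0 ∧ |φ e| ≤ 4) ∧
      ∀ v, ∑ e ∈ Finset.univ.filter (fun e => tl e = v), φ e =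
        ∑ e ∈ Finset.univ.filter (fun e => hd e = v), φ e :=
  fun V E _ _ _ ends => final flowAll intf V E ends

end Pool.Agent.Results.MP_e6539c_co.FiveFlow
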