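import Mathlib
import Pool.Agent.MP_e6539c_co.TW.Final

/-! Bridgeless multigraphs of treewidth at most five with no Petersen minor: the edge set is a
union of two cycles. -/

set_option autoImplicit false

namespace Pool.Agent.Results.MP_e6539c_co.TreewidthFive

open Pool.Agent.MP_e6539c_co.TW Finset Classical

/-- The Petersen labels as two-element subsets. -/
def kn : Fin 10 → {s : Finset (Fin 5) // s.card = 2} :=
  ![⟨{0, 1}, by decide⟩, ⟨{2, 3}, by decide⟩, ⟨{0, 4}, by decide⟩, ⟨{1, 2}, by decide⟩,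
    ⟨{3, 4}, by decide⟩, ⟨{2, 4}, by decide⟩, ⟨{1, 4}, by decide⟩, ⟨{1, 3}, by decide⟩,
    ⟨{0, 3}, by decide⟩, ⟨{0, 2}, by decide⟩]

lemma kn_surj : ∀ s, ∃ l, kn l = s := by decide +kernel

lemma kn_adj : ∀ l m : Fin 10, Disjoint (kn l).1 (kn m).1 →
    l ≠ m ∧ ((l.1, m.1) ∈ MG.petE ∨ (m.1, l.1) ∈ MG.petE) := by decide +kernel

lemma kn_ne : ∀ l : Fin 10, ∃ p ∈ MG.petE, p.1 = l.1 ∨ p.2 = l.1 := by decide +kernel

lemma cover_aux : ∀ x : K4, x ≠ 0 → x.1 = 1 ∨ x.2 = 1 := by decide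

/-- The multigraph with arbitrarily oriented edges. -/
noncomputable def mg {V E : Type} [Fintype E] (ends : E → Sym2 V) : MG V E :=
  ⟨univ, fun e => (ends e).out.1, fun e => (ends e).out.2⟩

lemma mg_lr {V E : Type} [Fintype E] (ends : E → Sym2 V) (e : E) :
    ends e = s((mg ends).l e, (mg ends).r e) := (Quot.out_eq (ends e)).symm

lemma mg_ends {V E : Type} [Fintype E] (ends : E → Sym2 V) (e : E) (x y : V) :
    (mg ends).Ends e x y ↔ ends e = s(x, y) := by
  rw [mg_lr ends e, Sym2.eq_iff]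
  rfl

lemma even_of {V E : Type} [Fintype E] (ends : E → Sym2 V) (ψ : E → K4) (f : K4 →+ ZMod 2) (v : V)
    (h : (mg ends).bd univ ψ v = 0) :
    Even {e | f (ψ e) = 1 ∧ v ∈ ends e ∧ ¬ (ends e).IsDiag}.ncard := by
  have : {e | f (ψ e) = 1 ∧ v ∈ ends e ∧ ¬ (ends e).IsDiag} =
      ↑(univ.filter fun e => f (ψ e) = 1 ∧ v ∈ ends e ∧ ¬ (ends e).IsDiag) := by simp
  rw [this, Set.ncard_coe_finset, ← ZMod.natCast_eq_zero_iff_even, ← map_zero f, ← h, card_filter,
    MG.bd, map_sum]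
  push_cast
  refine sum_congr rfl (fun e _ => ?_)
  rw [mg_lr ends e, map_add, apply_ite f, apply_ite f, map_zero]
  simp only [Sym2.mem_iff, Sym2.mk_isDiag_iff]
  generalize f (ψ e) = t
  generalize (mg ends).l e = a
  generalize (mg ends).r e = b
  have k : ∀ t : ZMod 2, t + t = 0 ∧ (if t = 1 then 1 else 0) = t := by decide
  by_cases h1 : a = v <;> by_cases h2 : b = v
  · simp [h1, h2, (k t).1]
  · subst h1
    simp [h2, Ne.symm h2, (k t).2]
  · subst h2
    simp [h1, (k t).2]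
  · simp [h1, h2, Ne.symm h1, Ne.symm h2]

theorem result : ∀ (V E : Type) [Fintype V] [Fintype E] (ends : E → Sym2 V),
    (∀ (e : E) (x y : V), ends e = s(x, y) →
      Relation.ReflTransGen (fun a b => ∃ e' : E, e' ≠ e ∧ ends e' = s(a, b)) x y) →
    (¬ ∃ B : {s : Finset (Fin 5) // s.card = 2} → Set V,
      (∀ i, ((SimpleGraph.fromEdgeSet (Set.range ends)).induce (B i)).Connected) ∧
      (∀ i j, i ≠ j → Disjoint (B i) (B j)) ∧
      (∀ i j : {s : Finset (Fin 5) // s.card = 2}, Disjoint i.1 j.1 →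
        ∃ x ∈ B i, ∃ y ∈ B j, (SimpleGraph.fromEdgeSet (Set.range ends)).Adj x y)) →
    (∃ (ι : Type) (T : SimpleGraph ι) (bag : ι → Finset V), T.IsTree ∧
      (∀ t, (bag t).card ≤ 6) ∧
      (∀ (e : E) (x y : V), ends e = s(x, y) → ∃ t, x ∈ bag t ∧ y ∈ bag t) ∧
      (∀ v, (T.induce {t | v ∈ bag t}).Connected)) →
    ∃ C₁ C₂ : Set E,
      (∀ v : V, Even {e : E | e ∈ C₁ ∧ v ∈ ends e ∧ ¬ (ends e).IsDiag}.ncard) ∧
      (∀ v : V, Even {e : E | e ∈ C₂ ∧ v ∈ ends e ∧ ¬ (ends e).IsDiag}.ncard) ∧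
      C₁ ∪ C₂ = Set.univ := by
  intro V E _ _ ends hb hp ht
  obtain ⟨ψ, f0, f1⟩ : (mg ends).Flowable := by
    refine flowable _ ?_ ?_ ?_
    · intro S hS
      obtain ⟨e, he⟩ := card_eq_one.1 hS
      have h0 : e ∈ (mg ends).cut (mg ends).A S := by simp [he]
      rw [(MG.ends_lr e).mem_cut_iff] at h0
      apply h0.2
      have := hb e _ _ (mg_lr ends e)
      generalize (mg ends).r e = y at this
      induction this with
      | refl => rfl
      | tail _ h2 ih =>
        obtain ⟨e', n, h'⟩ := h2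
        have : e' ∉ (mg ends).cut (mg ends).A S := by simp [he, n]
        rw [((mg_ends ends _ _ _).2 h').mem_cut_iff, not_and, not_not] at this
        exact ih.trans (this (mem_univ _))
    · rintro ⟨B, b1, b2, b3⟩
      choose ι hι using kn_surj
      have dis : ∀ l m : Fin 10, l ≠ m → Disjoint (B l) (B m) :=
        fun l m h => b2 l l.2 m m.2 (fun t => h (Fin.ext t))
      refine hp ⟨fun i => B (ι i), fun i => ?_, fun i j h => dis _ _ ?_, fun i j h => ?_⟩
      · obtain ⟨z, hz⟩ : (B (ι i)).Nonempty := by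
          obtain ⟨p, hp, h⟩ := kn_ne (ι i)
          obtain ⟨u, hu, v, hv, -⟩ := b3 p hp
          rcases h with h | h
          · exact ⟨u, h ▸ hu⟩
          · exact ⟨v, h ▸ hv⟩
        have : Nonempty (B (ι i)) := ⟨⟨z, hz⟩⟩
        refine ⟨fun ⟨x, hx⟩ ⟨y, hy⟩ => ?_⟩
        have := b1 _ (ι i).2 x hx y hy
        induction this with
        | refl => rfl
        | tail _ h2 ih =>
          obtain ⟨c1, c2, e, -, c3⟩ := h2
          rename_i b c _
          refine (ih c1).trans ?_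
          by_cases h : b = c
          · subst h; rfl
          · refine SimpleGraph.Adj.reachable ?_
            simp only [SimpleGraph.comap_adj, Function.Embedding.coe_subtype,
              SimpleGraph.fromEdgeSet_adj]
            exact ⟨⟨e, (mg_ends ends _ _ _).1 c3⟩, h⟩
      · exact fun t => h (by rw [← hι i, t, hι])
      · rw [← hι i, ← hι j] at h
        obtain ⟨n, h⟩ := kn_adj _ _ h
        have : ∃ x ∈ B (ι i), ∃ y ∈ B (ι j), (mg ends).Adj (mg ends).A x y := by
          rcases h with h | h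
          · exact b3 _ h
          · obtain ⟨u, hu, v, hv, a⟩ := b3 _ h
            exact ⟨v, hv, u, hu, a.symm⟩
        obtain ⟨x, hx, y, hy, e, -, c⟩ := this
        refine ⟨x, hx, y, hy, (SimpleGraph.fromEdgeSet_adj _).2 ⟨⟨e, (mg_ends ends _ _ _).1 c⟩, ?_⟩⟩
        rintro rfl
        exact Set.disjoint_left.1 (dis _ _ n) hx hy
    · obtain ⟨ι, T, bag, t1, t2, t3, t4⟩ := ht
      refine ⟨ι, T, bag, t1, t2, fun e _ => t3 e _ _ (mg_lr ends e), fun v s t hs ht => ?_⟩
      have := ((t4 v).preconnected ⟨s, hs⟩ ⟨t, ht⟩)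
      rw [SimpleGraph.reachable_iff_reflTransGen] at this
      exact this.lift (fun x : {t | v ∈ bag t} => x.1) (fun a b h => ⟨h, a.2, b.2⟩)
  refine ⟨{e | (ψ e).1 = 1}, {e | (ψ e).2 = 1}, fun v => ?_, fun v => ?_, ?_⟩
  · exact even_of ends ψ (AddMonoidHom.fst _ _) v (f1 v)
  · exact even_of ends ψ (AddMonoidHom.snd _ _) v (f1 v)
  · ext e
    simpa using cover_aux _ (f0 e (mem_univ _))

end Pool.Agent.Results.MP_e6539c_co.TreewidthFive
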